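import Pool.Agent.MWA.StmtsQ

/-!
# Block MWA, row HRP
-/

namespace Pool.Agent.MWA.H30

open Pool.Agent.Helper14_MV Pool.Agent.Helper2_MV Pool.Agent.MVO Pool.Agent.MWL Pool.Agent.MWS

theorem hrp (hTRN : MWL.TrnStmt) : HrpStmt := by
  intro n θ hn hRr k a i j hji hik hai hab
  rcases Nat.eq_or_lt_of_le hji with rfl | hlt
  · exact hab
  have h0 : (FC.ofFIC θ).R 1 (v2 2 1) (v2 2 (n + 1)) := by
    have e1 : mw 1 (v2 2 1) = [0, 0, 2, 0] := rfl
    have e2 : mw 1 (v2 2 (n + 1)) = [0, 0, 2] ++ List.replicate (n + 1) 0 := rfl
    show RR θ (mw 1 (v2 2 1)) (mw 1 (v2 2 (n + 1)))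
    rw [e1, e2]
    exact hRr
  have hB : BMap 1 k (fun t => if t = 0 then j else i) := by
    refine ⟨fun s t hst _ => ?_, fun t _ => ?_⟩
    · by_cases ht : t = 0
      · have hs : s = 0 := by omega
        simp [ht, hs]
      · by_cases hs : s = 0
        · simp [ht, hs, hji]
        · simp [ht, hs]
    · by_cases ht : t = 0
      · simp only [ht, if_true]
        omega
      · simp only [ht, if_false]
        exact hik
  have h1 := (FC.ofFIC θ).push k _ hB h0
  have e1 : ∀ p q t : ℕ, psh 1 (fun t => if t = 0 then j else i) (v2 p q) t =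
      (if t = j then p else 0) + if t = i then q else 0 := by
    intro p q t
    unfold psh v2
    rw [Finset.sum_range_succ, Finset.sum_range_one]
    simp only [if_true, one_ne_zero, if_false, eq_comm (a := j), eq_comm (a := i)]
  have h2 : (FC.ofFIC θ).R k (fun t => a t + if t = j then 2 * n else 0)
      (fun t => a t + (if t = j then 2 * n else 0) + if t = i then n else 0) := by
    refine (FC.ofFIC θ).ext ?_ ?_ ((FC.ofFIC θ).add (fun t => (a t + if t = j then 2 * n else 0) -
      ((if t = j then 2 else 0) + if t = i then 1 else 0)) h1)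
    · intro t _
      rw [e1]
      have h3 : 0 < a i := Nat.pos_of_ne_zero hai
      by_cases ht : t = i
      · subst ht
        split_ifs <;> omega
      · simp only [ht, if_false]
        split_ifs <;> omega
    · intro t _
      rw [e1]
      have h3 : 0 < a i := Nat.pos_of_ne_zero hai
      by_cases ht : t = i
      · subst ht
        split_ifs <;> omega
      · simp only [ht, if_false]
        split_ifs <;> omega
  have h3 : (FC.ofFIC θ).R k (fun t => a t + (if t = j then 2 * n else 0) + if t = i then n else 0)
      (fun t => a t + (if t = j then 2 * n else 0) + if t = i then 2 * n else 0) := by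
    refine (FC.ofFIC θ).ext ?_ ?_ ((FC.ofFIC θ).add (fun t => if t = i then n else 0) h2)
    · intro t _
      show _ = _
      split_ifs <;> omega
    · intro t _
      show _ = _
      split_ifs <;> omega
  have h4 : AbN n θ k (ad n a j) i := by
    show (FC.ofFIC θ).R k (ad n a j) (ad n (ad n a j) i)
    exact (FC.ofFIC θ).trans h2 h3
  exact ((hTRN n (FC.ofFIC θ) k a i).1 (ad n a j) hab).2 h4

end Pool.Agent.MWA.H30

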